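import Pool.Agent.Helper5.FRC.Defs

/-!
# FRC, packet DIS: one of the two pairings of a 4-circuit keeps the condition
-/

set_option autoImplicit false
set_option linter.unusedSectionVars false

namespace Pool.Agent.Helper26.FRC.DIS

open Finset Pool.Agent.Helper5.FRC

section

variable {V : Type} [Fintype V] [DecidableEq V]

/-- The complement of a closed set is closed. -/
lemma inv_sdiff {n : Equiv.Perm V} {A S : Finset V} (hA : Inv n A) (hS : Inv n S) :
    Inv n (A \ S) := by
  intro x hx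
  rw [mem_sdiff] at hx ⊢
  refine ⟨hA x hx.1, fun h => hx.2 ?_⟩
  have himg : S.image n = S := by
    apply Finset.eq_of_subset_of_card_le
    · intro y hy
      obtain ⟨z, hz, rfl⟩ := mem_image.mp hy
      exact hS z hz
    · rw [card_image_of_injective _ n.injective]
  rw [← himg] at h
  obtain ⟨z, hz, hzx⟩ := mem_image.mp h
  rwa [← n.injective hzx]

lemma inv_inter {n : Equiv.Perm V} {A S : Finset V} (hA : Inv n A) (hS : Inv n S) :
    Inv n (A ∩ S) := fun x hx =>
  mem_inter.mpr ⟨hA x (mem_inter.mp hx).1, hS x (mem_inter.mp hx).2⟩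

lemma inv_union {n : Equiv.Perm V} {A S : Finset V} (hA : Inv n A) (hS : Inv n S) :
    Inv n (A ∪ S) := fun x hx =>
  (mem_union.mp hx).elim (fun h => mem_union.mpr (Or.inl (hA x h)))
    fun h => mem_union.mpr (Or.inr (hS x h))

/-- Leaving out points. -/
lemma dm_sdiff {A Z Y : Finset V} {t : V → V} (hP : Prg A t) (hY : Y ⊆ A) :
    dm t (Y \ Z) ≤ dm t Y + (Y ∩ Z).card := by
  unfold dm
  have hsub : ((Y \ Z).filter fun x => t x ∉ Y \ Z) ⊆
      (Y.filter fun x => t x ∉ Y) ∪ (Y ∩ Z).image t := by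
    intro x hx
    rw [mem_filter, mem_sdiff, mem_sdiff] at hx
    obtain ⟨⟨hxY, hxZ⟩, hx2⟩ := hx
    rw [mem_union, mem_filter, mem_image]
    by_cases h : t x ∈ Y
    · right
      have hz : t x ∈ Z := by
        by_contra hz
        exact hx2 ⟨h, hz⟩
      exact ⟨t x, mem_inter.mpr ⟨h, hz⟩, (hP x (hY hxY)).2.1⟩
    · exact Or.inl ⟨hxY, h⟩
  exact (card_le_card hsub).trans
    ((card_union_le _ _).trans (Nat.add_le_add_left card_image_le _))

lemma even_card (HS : SubmStmt) {A : Finset V} {t : V → V} (hP : Prg A t) : A.card % 2 = 0 := by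
  rw [← (HS V A A A t hP Subset.rfl Subset.rfl).2.2]
  have : dm t A = 0 := by
    unfold dm
    rw [card_eq_zero, filter_eq_empty_iff]
    intro x hx h
    exact h (hP x hx).1
  rw [this]

/-- The main computation. -/
lemma core (HS : SubmStmt) {n : Equiv.Perm V} {A Z : Finset V} {t : V → V} (hA : Inv n A)
    (hP : Prg A t) (hB : Bc n A t) (hZ : Z ⊆ A) (hZi : Inv n Z) (h4 : Z.card = 4)
    {K K' W W' : Finset V} (hK : K ⊆ A \ Z) (hK' : K' ⊆ A \ Z) (hW : W ⊆ Z) (hW' : W' ⊆ Z)
    (iK : Inv n K) (iK' : Inv n K') (d : dm t (K ∪ W) = 1) (d' : dm t (K' ∪ W') = 1)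
    (oK : Odd K.card) (oK' : Odd K'.card) (o : Odd (K ∩ K').card)
    (c1 : (W ∩ W').card = 1) (c2 : (Z \ (W ∪ W')).card = 1) : False := by
  have hKA : ∀ x ∈ K, x ∈ A ∧ x ∉ Z := fun x hx => mem_sdiff.mp (hK hx)
  have hKA' : ∀ x ∈ K', x ∈ A ∧ x ∉ Z := fun x hx => mem_sdiff.mp (hK' hx)
  have hU : K ∪ W ⊆ A := union_subset (fun x hx => (hKA x hx).1) (hW.trans hZ)
  have hU' : K' ∪ W' ⊆ A := union_subset (fun x hx => (hKA' x hx).1) (hW'.trans hZ)
  have s1 := (HS V A (K ∪ W) (K' ∪ W') t hP hU hU').1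
  have hUU : (K ∪ W) ∪ (K' ∪ W') ⊆ A := union_subset hU hU'
  have s2 := (HS V A ((K ∪ W) ∪ (K' ∪ W')) A t hP hUU Subset.rfl).2.1
  have e1 : ((K ∪ W) ∩ (K' ∪ W')) \ Z = K ∩ K' := by
    ext x
    simp only [mem_sdiff, mem_inter, mem_union]
    have h1 := hKA x
    have h2 := hKA' x
    have h3 := @hW x
    have h4 := @hW' x
    tauto
  have e2 : ((K ∪ W) ∩ (K' ∪ W')) ∩ Z = W ∩ W' := by
    ext x
    simp only [mem_inter, mem_union]
    have h1 := hKA x
    have h2 := hKA' x
    have h3 := @hW x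
    have h4 := @hW' x
    tauto
  have e3 : (A \ ((K ∪ W) ∪ (K' ∪ W'))) ∩ Z = Z \ (W ∪ W') := by
    ext x
    simp only [mem_sdiff, mem_inter, mem_union]
    have h1 := hKA x
    have h2 := hKA' x
    have h3 := @hZ x
    tauto
  have e4 : (A \ ((K ∪ W) ∪ (K' ∪ W'))) \ Z = (A \ Z) \ (K ∪ K') := by
    ext x
    simp only [mem_sdiff, mem_union]
    have h3 := @hW x
    have h4 := @hW' x
    tauto
  have b1 := dm_sdiff (Z := Z) hP (inter_subset_left.trans hU : (K ∪ W) ∩ (K' ∪ W') ⊆ A)
  have b2 := dm_sdiff (Z := Z) hP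
    (sdiff_subset : A \ ((K ∪ W) ∪ (K' ∪ W')) ⊆ A)
  rw [e1, e2, c1] at b1
  rw [e4, e3, c2, s2] at b2
  have iX : Inv n (K ∩ K') := inv_inter iK iK'
  have iX' : Inv n ((A \ Z) \ (K ∪ K')) := inv_sdiff (inv_sdiff hA hZi) (inv_union iK iK')
  have hX : K ∩ K' ⊆ A := fun x hx => (hKA x (mem_inter.mp hx).1).1
  have hX' : (A \ Z) \ (K ∪ K') ⊆ A := sdiff_subset.trans sdiff_subset
  have q1 := (HS V A (K ∩ K') A t hP hX Subset.rfl).2.2
  have q2 := (HS V A ((A \ Z) \ (K ∪ K')) A t hP hX' Subset.rfl).2.2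
  have k1 := even_card HS hP
  have k2 : (A \ Z).card = A.card - 4 := by rw [card_sdiff_of_subset hZ, h4]
  have k3 : ((A \ Z) \ (K ∪ K')).card = (A \ Z).card - (K ∪ K').card :=
    card_sdiff_of_subset (union_subset hK hK')
  have k4 := card_union_add_card_inter K K'
  have k5 : (K ∪ K').card ≤ (A \ Z).card := card_le_card (union_subset hK hK')
  have k6 : 4 ≤ A.card := h4 ▸ card_le_card hZ
  rw [Nat.odd_iff] at oK oK' o
  have o' : ((A \ Z) \ (K ∪ K')).card % 2 = 1 := by omega
  have n1 : dm t (K ∩ K') ≠ 1 := hB _ hX iX (Nat.odd_iff.mpr o)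
  have n2 : dm t ((A \ Z) \ (K ∪ K')) ≠ 1 := hB _ hX' iX' (Nat.odd_iff.mpr o')
  omega

/-- Two bad sets for different pairings. -/
lemma two (HS : SubmStmt) {n : Equiv.Perm V} {A Z : Finset V} {t : V → V} (hA : Inv n A)
    (hP : Prg A t) (hB : Bc n A t) (hZ : Z ⊆ A) (hZi : Inv n Z) (h4 : Z.card = 4)
    {K K' W W' : Finset V} (hK : K ⊆ A \ Z) (hK' : K' ⊆ A \ Z) (hW : W ⊆ Z) (hW' : W' ⊆ Z)
    (iK : Inv n K) (iK' : Inv n K') (d : dm t (K ∪ W) = 1) (d' : dm t (K' ∪ W') = 1)
    (oK : Odd K.card) (oK' : Odd K'.card)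
    (w : W.card = 2) (w' : W'.card = 2) (c1 : (W ∩ W').card = 1) : False := by
  have u1 := card_union_add_card_inter W W'
  have c2 : (Z \ (W ∪ W')).card = 1 := by
    rw [card_sdiff_of_subset (union_subset hW hW'), h4]
    omega
  rcases Nat.even_or_odd (K ∩ K').card with o | o
  · have hKA' : ∀ x ∈ K', x ∈ A ∧ x ∉ Z := fun x hx => mem_sdiff.mp (hK' hx)
    have hU' : K' ∪ W' ⊆ A := union_subset (fun x hx => (hKA' x hx).1) (hW'.trans hZ)
    have e : ((A \ Z) \ K') ∪ (Z \ W') = A \ (K' ∪ W') := by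
      ext x
      simp only [mem_sdiff, mem_union]
      have h1 := hKA' x
      have h2 := @hZ x
      have h3 := @hW' x
      tauto
    have k1 := even_card HS hP
    have k2 : (A \ Z).card = A.card - 4 := by rw [card_sdiff_of_subset hZ, h4]
    have k3 : ((A \ Z) \ K').card = (A \ Z).card - K'.card := card_sdiff_of_subset hK'
    have k4 : K'.card ≤ (A \ Z).card := card_le_card hK'
    have k6 : 4 ≤ A.card := h4 ▸ card_le_card hZ
    have e2 : K ∩ ((A \ Z) \ K') = K \ (K ∩ K') := by
      ext x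
      simp only [mem_sdiff, mem_inter]
      have h1 := @hK x
      rw [mem_sdiff] at h1
      tauto
    have k7 : (K ∩ ((A \ Z) \ K')).card = K.card - (K ∩ K').card := by
      rw [e2, card_sdiff_of_subset inter_subset_left]
    have k8 : (K ∩ K').card ≤ K.card := card_le_card inter_subset_left
    have e3 : W ∩ (Z \ W') = W \ (W ∩ W') := by
      ext x
      simp only [mem_sdiff, mem_inter]
      have h1 := @hW x
      tauto
    have e4 : Z \ (W ∪ (Z \ W')) = W' \ (W ∩ W') := by
      ext x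
      simp only [mem_sdiff, mem_inter, mem_union]
      have h1 := @hW' x
      tauto
    rw [Nat.odd_iff] at oK oK'
    rw [Nat.even_iff] at o
    refine core HS hA hP hB hZ hZi h4 (K := K) (K' := (A \ Z) \ K') (W := W) (W' := Z \ W') hK
      sdiff_subset hW sdiff_subset iK (inv_sdiff (inv_sdiff hA hZi) iK') d ?_
      (Nat.odd_iff.mpr oK) (Nat.odd_iff.mpr (by omega)) (Nat.odd_iff.mpr (by omega)) ?_ ?_
    · rw [e, (HS V A (K' ∪ W') A t hP hU' Subset.rfl).2.1]
      exact d'
    · rw [e3, card_sdiff_of_subset inter_subset_left, w, c1]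
    · rw [e4, card_sdiff_of_subset inter_subset_right, w', c1]
  · exact core HS hA hP hB hZ hZi h4 hK hK' hW hW' iK iK' d d' oK oK' o c1 c2

/-- The pairing `a b | c d`. -/
def pr (a b c d : V) (x : V) : V := if x = a then b else if x = b then a else if x = c then d else c

/-- One pairing: it is good or gives a bad set. -/
lemma half (HL : LiftStmt) {n : Equiv.Perm V} {A Z : Finset V} {t : V → V}
    (hP : Prg A t) (hB : Bc n A t) (hZ : Z ⊆ A) (hZi : Inv n Z) (h4 : Z.card = 4)
    (a b c d : V) (hab : a ≠ b) (hac : a ≠ c) (had : a ≠ d) (hbc : b ≠ c) (hbd : b ≠ d)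
    (hcd : c ≠ d) (hm : ∀ x, x ∈ Z ↔ x = a ∨ x = b ∨ x = c ∨ x = d) (h1 : n a = b)
    (h3 : n c = d) :
    (∃ p t' : V → V, Prg Z p ∧ (∀ z ∈ Z, p z = n z ∨ n (p z) = z) ∧ Prg (A \ Z) t' ∧
      (∀ x ∈ A \ Z, (t x ∉ Z ∧ t' x = t x) ∨ (t x ∈ Z ∧ t (p (t x)) ∉ Z ∧ t' x = t (p (t x))) ∨
        (t x ∈ Z ∧ t (p (t x)) ∈ Z ∧ t' x = t (p (t (p (t x)))))) ∧
      Bc n (A \ Z) t') ∨
    ∃ K W : Finset V, K ⊆ A \ Z ∧ W ⊆ Z ∧ Inv n K ∧ dm t (K ∪ W) = 1 ∧ Odd K.card ∧
      (W = {a, b} ∨ W = {c, d}) := by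
  have pa : pr a b c d a = b := by simp [pr]
  have pb : pr a b c d b = a := by simp [pr, hab.symm]
  have pc : pr a b c d c = d := by simp [pr, hac.symm, hbc.symm]
  have pd : pr a b c d d = c := by simp [pr, had.symm, hbd.symm, hcd.symm]
  have hPr : Prg Z (pr a b c d) := by
    intro x hx
    rcases (hm x).mp hx with rfl | rfl | rfl | rfl
    · rw [pa, pb]
      exact ⟨(hm _).mpr (Or.inr (Or.inl rfl)), rfl, hab.symm⟩
    · rw [pb, pa]
      exact ⟨(hm _).mpr (Or.inl rfl), rfl, hab⟩
    · rw [pc, pd]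
      exact ⟨(hm _).mpr (Or.inr (Or.inr (Or.inr rfl))), rfl, hcd.symm⟩
    · rw [pd, pc]
      exact ⟨(hm _).mpr (Or.inr (Or.inr (Or.inl rfl))), rfl, hcd⟩
  have hpn : ∀ z ∈ Z, pr a b c d z = n z ∨ n (pr a b c d z) = z := by
    intro x hx
    rcases (hm x).mp hx with rfl | rfl | rfl | rfl
    · left
      rw [pa, h1]
    · right
      rw [pb, h1]
    · left
      rw [pc, h3]
    · right
      rw [pd, h3]
  obtain ⟨t', ht', hf, hl⟩ := HL V A Z t (pr a b c d) hP hZ h4 hPr
  by_cases hBc : Bc n (A \ Z) t'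
  · exact Or.inl ⟨pr a b c d, t', hPr, hpn, ht', hf, hBc⟩
  · right
    unfold Bc at hBc
    push Not at hBc
    obtain ⟨K, hK, iK, oK, hd⟩ := hBc
    obtain ⟨W, hW, hWp, hWd⟩ := hl K hK
    rw [hd] at hWd
    refine ⟨K, W, hK, hW, iK, hWd, oK, ?_⟩
    have ab : a ∈ W ↔ b ∈ W := ⟨fun h => pa ▸ hWp a h, fun h => pb ▸ hWp b h⟩
    have cd : c ∈ W ↔ d ∈ W := ⟨fun h => pc ▸ hWp c h, fun h => pd ▸ hWp d h⟩
    by_cases ha : a ∈ W
    · by_cases hc : c ∈ W
      · exfalso
        have hWZ : W = Z := by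
          refine Subset.antisymm hW fun x hx => ?_
          rcases (hm x).mp hx with rfl | rfl | rfl | rfl
          · exact ha
          · exact ab.mp ha
          · exact hc
          · exact cd.mp hc
        rw [hWZ] at hWd
        have hdis : Disjoint K Z := by
          rw [disjoint_left]
          exact fun x hx => (mem_sdiff.mp (hK hx)).2
        refine hB (K ∪ Z) (union_subset (hK.trans sdiff_subset) hZ) (inv_union iK hZi) ?_ hWd
        rw [card_union_of_disjoint hdis, h4]
        rw [Nat.odd_iff] at oK ⊢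
        omega
      · left
        ext x
        rw [mem_insert, mem_singleton]
        constructor
        · intro hx
          rcases (hm x).mp (hW hx) with rfl | rfl | rfl | rfl
          · exact Or.inl rfl
          · exact Or.inr rfl
          · exact absurd hx hc
          · exact absurd (cd.mpr hx) hc
        · rintro (rfl | rfl)
          · exact ha
          · exact ab.mp ha
    · by_cases hc : c ∈ W
      · right
        ext x
        rw [mem_insert, mem_singleton]
        constructor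
        · intro hx
          rcases (hm x).mp (hW hx) with rfl | rfl | rfl | rfl
          · exact absurd hx ha
          · exact absurd (ab.mpr hx) ha
          · exact Or.inl rfl
          · exact Or.inr rfl
        · rintro (rfl | rfl)
          · exact hc
          · exact cd.mp hc
      · exfalso
        have hW0 : W = ∅ := by
          rw [eq_empty_iff_forall_notMem]
          intro x hx
          rcases (hm x).mp (hW hx) with rfl | rfl | rfl | rfl
          · exact ha hx
          · exact ha (ab.mpr hx)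
          · exact hc hx
          · exact hc (cd.mpr hx)
        rw [hW0, union_empty] at hWd
        exact hB K (hK.trans sdiff_subset) iK oK hWd

lemma inter_card (a b c d : V) (hab : a ≠ b) (hac : a ≠ c) (had : a ≠ d) (hbc : b ≠ c)
    (hbd : b ≠ d) (hcd : c ≠ d) {W W' : Finset V} (h : W = {a, b} ∨ W = {c, d})
    (h' : W' = {b, c} ∨ W' = {d, a}) : (W ∩ W').card = 1 := by
  rw [card_eq_one]
  rcases h with rfl | rfl <;> rcases h' with rfl | rfl
  · refine ⟨b, ?_⟩
    ext x
    simp only [mem_inter, mem_insert, mem_singleton]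
    constructor
    · rintro ⟨rfl | rfl, h | h⟩ <;> first | rfl | exact absurd h ‹_› | exact absurd h.symm ‹_› | exact h
    · rintro rfl
      exact ⟨Or.inr rfl, Or.inl rfl⟩
  · refine ⟨a, ?_⟩
    ext x
    simp only [mem_inter, mem_insert, mem_singleton]
    constructor
    · rintro ⟨rfl | rfl, h | h⟩ <;> first | rfl | exact absurd h ‹_› | exact absurd h.symm ‹_› | exact h
    · rintro rfl
      exact ⟨Or.inl rfl, Or.inr rfl⟩
  · refine ⟨c, ?_⟩
    ext x
    simp only [mem_inter, mem_insert, mem_singleton]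
    constructor
    · rintro ⟨rfl | rfl, h | h⟩ <;> first | rfl | exact absurd h ‹_› | exact absurd h.symm ‹_› | exact h
    · rintro rfl
      exact ⟨Or.inl rfl, Or.inr rfl⟩
  · refine ⟨d, ?_⟩
    ext x
    simp only [mem_inter, mem_insert, mem_singleton]
    constructor
    · rintro ⟨rfl | rfl, h | h⟩ <;> first | rfl | exact absurd h ‹_› | exact absurd h.symm ‹_› | exact h
    · rintro rfl
      exact ⟨Or.inr rfl, Or.inl rfl⟩

lemma card_or {a b c d : V} (hab : a ≠ b) (hcd : c ≠ d) {W : Finset V}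
    (h : W = {a, b} ∨ W = {c, d}) : W.card = 2 := by
  rcases h with rfl | rfl
  · exact card_pair hab
  · exact card_pair hcd

/-- The points of a circuit of length four. -/
lemma four {n : Equiv.Perm V} {Z : Finset V} (hC : Cir n Z) (h4 : Z.card = 4) :
    ∃ a b c d : V, a ≠ b ∧ a ≠ c ∧ a ≠ d ∧ b ≠ c ∧ b ≠ d ∧ c ≠ d ∧
      (∀ x, x ∈ Z ↔ x = a ∨ x = b ∨ x = c ∨ x = d) ∧ n a = b ∧ n b = c ∧ n c = d ∧ n d = a := by
  obtain ⟨⟨a, ha⟩, hi, hmin⟩ := hC
  have hb := hi a ha
  have hc := hi _ hb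
  have hd := hi _ hc
  have he := hi _ hd
  have f1 : n a ≠ a := by
    intro h
    have := hmin {a} (singleton_subset_iff.mpr ha) (singleton_nonempty a) (by
      intro x hx
      rw [mem_singleton] at hx
      rw [hx, h]
      exact mem_singleton_self a)
    rw [← this, card_singleton] at h4
    omega
  have f2 : n (n a) ≠ a := by
    intro h
    have := hmin {a, n a} (by
      intro x hx
      rw [mem_insert, mem_singleton] at hx
      rcases hx with rfl | rfl
      · exact ha
      · exact hb) ⟨a, mem_insert_self _ _⟩ (by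
      intro x hx
      rw [mem_insert, mem_singleton] at hx ⊢
      rcases hx with rfl | rfl
      · exact Or.inr rfl
      · exact Or.inl h)
    have h5 := card_le_two (a := a) (b := n a)
    rw [this, h4] at h5
    omega
  have f3 : n (n (n a)) ≠ a := by
    intro h
    have := hmin {a, n a, n (n a)} (by
      intro x hx
      rw [mem_insert, mem_insert, mem_singleton] at hx
      rcases hx with rfl | rfl | rfl
      · exact ha
      · exact hb
      · exact hc) ⟨a, mem_insert_self _ _⟩ (by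
      intro x hx
      rw [mem_insert, mem_insert, mem_singleton] at hx ⊢
      rcases hx with rfl | rfl | rfl
      · exact Or.inr (Or.inl rfl)
      · exact Or.inr (Or.inr rfl)
      · exact Or.inl h)
    have h5 := card_le_three (a := a) (b := n a) (c := n (n a))
    rw [this, h4] at h5
    omega
  have g1 : a ≠ n a := f1.symm
  have g2 : a ≠ n (n a) := f2.symm
  have g3 : a ≠ n (n (n a)) := f3.symm
  have g4 : n a ≠ n (n a) := fun h => g1 (n.injective h)
  have g5 : n a ≠ n (n (n a)) := fun h => g2 (n.injective h)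
  have g6 : n (n a) ≠ n (n (n a)) := fun h => g4 (n.injective h)
  have hsub : ({a, n a, n (n a), n (n (n a))} : Finset V) ⊆ Z := by
    intro x hx
    rw [mem_insert, mem_insert, mem_insert, mem_singleton] at hx
    rcases hx with rfl | rfl | rfl | rfl
    · exact ha
    · exact hb
    · exact hc
    · exact hd
  have hcard : ({a, n a, n (n a), n (n (n a))} : Finset V).card = 4 := by
    rw [card_insert_of_notMem, card_insert_of_notMem, card_insert_of_notMem, card_singleton]
    · rw [mem_singleton]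
      exact g6
    · rw [mem_insert, mem_singleton]
      push Not
      exact ⟨g4, g5⟩
    · rw [mem_insert, mem_insert, mem_singleton]
      push Not
      exact ⟨g1, g2, g3⟩
  have heq := eq_of_subset_of_card_le hsub (by rw [hcard, h4])
  have hm : ∀ x, x ∈ Z ↔ x = a ∨ x = n a ∨ x = n (n a) ∨ x = n (n (n a)) := by
    intro x
    rw [← heq, mem_insert, mem_insert, mem_insert, mem_singleton]
  refine ⟨a, n a, n (n a), n (n (n a)), g1, g2, g3, g4, g5, g6, hm, rfl, rfl, rfl, ?_⟩
  rcases (hm _).mp he with h | h | h | h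
  · exact h
  · exact absurd (n.injective h) f3
  · exact absurd (n.injective (n.injective h)) f2
  · exact absurd (n.injective (n.injective (n.injective h))) f1

end

/-- **DIS**. -/
theorem t (HS : SubmStmt) (HL : LiftStmt) : DisStmt := by
  intro V _ _ n A Z t hA hP hB hZ hC h4
  obtain ⟨a, b, c, d, hab, hac, had, hbc, hbd, hcd, hm, h1, h2, h3, h5⟩ := four hC h4
  rcases half HL hP hB hZ hC.2.1 h4 a b c d hab hac had hbc hbd hcd hm h1 h3 with h | h
  · exact h
  rcases half HL hP hB hZ hC.2.1 h4 b c d a hbc hbd hab.symm hcd hac.symm had.symm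
    (fun x => by rw [hm]; tauto) h2 h5 with h' | h'
  · exact h'
  exfalso
  obtain ⟨K, W, hK, hW, iK, dK, oK, hw⟩ := h
  obtain ⟨K', W', hK', hW', iK', dK', oK', hw'⟩ := h'
  exact two HS hA hP hB hZ hC.2.1 h4 hK hK' hW hW' iK iK' dK dK' oK oK' (card_or hab hcd hw)
    (card_or hbc had.symm hw') (inter_card a b c d hab hac had hbc hbd hcd hw hw')

end Pool.Agent.Helper26.FRC.DIS
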